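import Pool.Agent.helper75.KL.Main

/-!
# Normal Kleinian subgroups of `SO(1,4)`: a counterexample

There are finitely generated Kleinian groups `F ⊲ G` in `SO(1,4)`, with `[G:F] = ∞` and `F`
non-elementary, and a `G`-invariant component `Ω` of the domain of discontinuity of `G` such that
`π₁(Ω/F)` is finitely generated but `Ω` is not simply connected.

Construction: 14 of the 24 walls of the regular ideal 24-cell generate a right-angled reflection
group `W` (integer matrices).  `G` is the kernel of the 3-colouring map `W → (ℤ/2)³`, and `F` is the
kernel of a map `G → ℤ` (sum of the translation parts of three actions on `ℤ`).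
-/

namespace Pool.Agent.Results.MP_6d80d4_gt.KleinianQuotient

open Pool.Agent.helper75.KL

/-- There are `F`, `G`, `Ω` as in the question, with `G` torsion-free, acting freely on `Ω` and
preserving the two sheets of the hyperboloid, `Ω` path-connected, such that the fundamental group
of `Ω/F` is finitely generated (for every base point) and `Ω` is not simply connected. -/
theorem result : ∃ (F G : Subgroup SO14) (Ω : Set Sph), Setting F G Ω ∧
    (∀ A ∈ G, 0 < A.mat 0 0) ∧
    (∀ A ∈ G, IsOfFinOrder A → A = 1) ∧ (∀ A ∈ G, ∀ y ∈ Ω, A • y = y → A = 1) ∧
    IsPathConnected Ω ∧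
    (∀ q : QuotSp F Ω, Group.FG (FundamentalGroup (QuotSp F Ω) q)) ∧
    ¬ IsSimplyConnected Ω :=
  kleinian_main

end Pool.Agent.Results.MP_6d80d4_gt.KleinianQuotient
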